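import Pool.Agent.Y499.GB.Gen

/-!
# Fields of curvature tensors: integral pinching
-/

set_option autoImplicit false

namespace Pool.Agent.Y499.GB

open Finset Pool.Agent.W666.GB MeasureTheory

variable {V : Type*} [NormedAddCommGroup V] [InnerProductSpace ℝ V] {m : ℕ}

/-- The pointwise estimate in terms of the sectional curvatures. -/
theorem gbc_sec (hm : 0 < m) (e : OrthonormalBasis (Fin m × Bool) ℝ V)
    {R : V → V → V → V → ℝ} (hR : AlgCurv R) {κ η : ℝ} (hη : 0 ≤ η)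
    (hs : scal e R = -(κ * (2 * m * (2 * m - 1)))) (hsec : SecIn R (-κ - η) (-κ + η)) :
    |(-1) ^ m * gbc e R - roundGB m κ| ≤
      1 / 5 * roundGB m |κ| +
        1 / (3 * m) * roundGB m (4 / 3 * 10 ^ 6 * Real.sqrt (2 * m) * η) := by
  have hm' : (0 : ℝ) < m := by exact_mod_cast hm
  have hE := ET_curv hR κ
  have hsE : SecIn (ET R κ) (-η) η := by
    intro x y hx hy hxy
    have h3 := hsec x y hx hy hxy
    have h4 : ET R κ x y x y = -R x y x y - κ := by
      simp only [ET]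
      rw [real_inner_self_eq_norm_sq, real_inner_self_eq_norm_sq, hxy, hx, hy]; ring
    rw [h4]
    constructor <;> linarith [h3.1, h3.2]
  have hall := hE.sec_all hη hsE
  have hcard : (Fintype.card (Fin m × Bool) : ℝ) = 2 * m := by
    rw [Fintype.card_prod, Fintype.card_fin, Fintype.card_bool]; push_cast; ring
  have hq : Real.sqrt (2 * m) ^ 2 = 2 * m := Real.sq_sqrt (by positivity)
  set D : ℝ := 4 / 3 * Real.sqrt (2 * m) * η * (2 * m) with hDdef
  have hD : 0 ≤ D := by positivity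
  have hD2 : D ^ 2 = 16 / 9 * (2 * m) ^ 3 * η ^ 2 := by
    rw [hDdef]
    calc (4 / 3 * Real.sqrt (2 * m) * η * (2 * m)) ^ 2 =
        16 / 9 * (Real.sqrt (2 * m) ^ 2) * η ^ 2 * (2 * m) ^ 2 := by ring
      _ = _ := by rw [hq]; ring
  have h4 : devR e R κ ≤ D ^ 2 := by
    have h5 := hE.hs_bound hη hall e
    rw [hcard] at h5
    have h6 : devR e R κ = ∑ i, ∑ j, ∑ k, ∑ l, ET R κ (e i) (e j) (e k) (e l) ^ 2 := by
      simp only [← EE_eq, EE, neg_sq, devR]
    rw [h6, hD2]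
    exact h5.trans (le_of_eq (by ring))
  have h5 : devRic e R κ ≤ D ^ 2 := by
    have h5 := hE.ric_bound hη hall e
    rw [hcard] at h5
    have h6 : devRic e R κ = ∑ j, ∑ l, (∑ i, ET R κ (e i) (e j) (e i) (e l)) ^ 2 := by
      have h7 : ∀ j l, ∑ i, ET R κ (e i) (e j) (e i) (e l) = ricc (EE e R κ) j l := by
        intro j l
        simp only [← EE_eq, ricc]
      simp only [h7, ricc_EE, neg_sq, devRic]
    rw [h6, hD2]
    refine h5.trans ?_
    have : 0 ≤ (2 * m : ℝ) ^ 3 * η ^ 2 := by positivity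
    nlinarith
  have h6 := gbc_gen hm e hR hD hs h4 h5
  have h7 : 10 ^ 6 * D / (2 * m) = 4 / 3 * 10 ^ 6 * Real.sqrt (2 * m) * η := by
    rw [hDdef]; field_simp
  rwa [h7] at h6

theorem roundGB_eq (m : ℕ) (x : ℝ) : roundGB m x = roundGB m 1 * x ^ m := by
  unfold roundGB; rw [one_pow, mul_one]

/-- Integration of a pointwise estimate. -/
theorem int_est {M : Type} [MeasurableSpace M] (μ : Measure M) (m : ℕ) (g κ Y : M → ℝ)
    (hg : Integrable g μ) (hκ : Integrable (fun p => κ p ^ m) μ)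
    (hY : Integrable (fun p => Y p ^ m) μ)
    (h : ∀ p, |(-1) ^ m * g p - roundGB m (κ p)| ≤
      1 / 5 * roundGB m |κ p| + 1 / (3 * m) * roundGB m (Y p)) :
    |(-1) ^ m * ∫ p, g p ∂μ - roundGB m 1 * ∫ p, κ p ^ m ∂μ| ≤
      roundGB m 1 * (1 / 5 * ∫ p, |κ p| ^ m ∂μ + 1 / (3 * m) * ∫ p, Y p ^ m ∂μ) := by
  have hκ' : Integrable (fun p => |κ p| ^ m) μ := by
    have := hκ.abs
    simpa only [abs_pow] using this
  have h1 : (-1) ^ m * ∫ p, g p ∂μ - roundGB m 1 * ∫ p, κ p ^ m ∂μ =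
      ∫ p, ((-1) ^ m * g p - roundGB m (κ p)) ∂μ := by
    rw [integral_sub (hg.const_mul _)]
    · rw [integral_const_mul]
      congr 1
      simp only [roundGB_eq m (κ _)]
      rw [integral_const_mul]
    · simp only [roundGB_eq m (κ _)]
      exact hκ.const_mul _
  have h2 : ∫ p, (1 / 5 * roundGB m |κ p| + 1 / (3 * m) * roundGB m (Y p)) ∂μ =
      roundGB m 1 * (1 / 5 * ∫ p, |κ p| ^ m ∂μ + 1 / (3 * m) * ∫ p, Y p ^ m ∂μ) := by
    simp only [roundGB_eq m |κ _|, roundGB_eq m (Y _)]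
    rw [integral_add ((hκ'.const_mul _).const_mul _) ((hY.const_mul _).const_mul _),
      integral_const_mul, integral_const_mul, integral_const_mul, integral_const_mul]
    ring
  rw [h1, ← h2]
  refine (abs_integral_le_integral_abs).trans (integral_mono_of_nonneg ?_ ?_ ?_)
  · exact Filter.Eventually.of_forall fun p => abs_nonneg _
  · simp only [roundGB_eq m |κ _|, roundGB_eq m (Y _)]
    exact ((hκ'.const_mul _).const_mul _).add ((hY.const_mul _).const_mul _)
  · exact Filter.Eventually.of_forall h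

/-- The sign from the integrated estimate. -/
theorem int_sign {M : Type} [MeasurableSpace M] (μ : Measure M) (m : ℕ) (hm : 0 < m)
    (g κ Y : M → ℝ)
    (hg : Integrable g μ) (hκ : Integrable (fun p => κ p ^ m) μ)
    (hY : Integrable (fun p => Y p ^ m) μ)
    (h : ∀ p, |(-1) ^ m * g p - roundGB m (κ p)| ≤
      1 / 5 * roundGB m |κ p| + 1 / (3 * m) * roundGB m (Y p))
    (hs : Even m ∨ ∀ p, 0 ≤ κ p)
    (hle : ∫ p, Y p ^ m ∂μ ≤ m * ∫ p, |κ p| ^ m ∂μ) :
    7 / 15 * (roundGB m 1 * ∫ p, |κ p| ^ m ∂μ) ≤ (-1) ^ m * ∫ p, g p ∂μ ∧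
      (-1) ^ m * ∫ p, g p ∂μ ≤ 23 / 15 * (roundGB m 1 * ∫ p, |κ p| ^ m ∂μ) := by
  have hm' : (0 : ℝ) < m := by exact_mod_cast hm
  have h1 := abs_le.mp (int_est μ m g κ Y hg hκ hY h)
  have h2 : ∀ p, κ p ^ m = |κ p| ^ m := by
    intro p
    rcases hs with hs | hs
    · exact (hs.pow_abs (κ p)).symm
    · rw [abs_of_nonneg (hs p)]
  simp only [h2] at h1
  have hG : 0 < roundGB m 1 := roundGB_pos one_pos
  have h3 : 1 / (3 * m) * ∫ p, Y p ^ m ∂μ ≤ 1 / 3 * ∫ p, |κ p| ^ m ∂μ := by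
    calc 1 / (3 * m) * ∫ p, Y p ^ m ∂μ ≤ 1 / (3 * m) * (m * ∫ p, |κ p| ^ m ∂μ) :=
          mul_le_mul_of_nonneg_left hle (by positivity)
      _ = _ := by field_simp
  have h4 := mul_le_mul_of_nonneg_left h3 hG.le
  constructor <;> nlinarith [h1.1, h1.2]

end Pool.Agent.Y499.GB
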