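import Pool.Agent.W666.GB.Main

/-!
# The Gauss-Bonnet-Chern integrand and the distance to constant curvature, without smallness

The estimates of `Pool/Agent/W666/GB/` in a homogeneous form: for every algebraic curvature tensor in
dimension `2 m`, every value of the mean of the sectional curvatures and every size of the deviation.
-/

set_option autoImplicit false

namespace Pool.Agent.Y499.GB

open Finset Pool.Agent.W666.GB

theorem term_gen (m k : ℕ) (hk : 0 < k) (hkm : k ≤ m) (y : ℝ) (hy : 0 ≤ y) :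
    (m.choose k : ℝ) * ((2 * m).factorial / ((2 * m).descFactorial (2 * k) *
      (2 * k).factorial) * (k.factorial * (21600 * Real.exp 1 * (k : ℝ) ^ 2 *
        (1 / 10 ^ 6 * y * (2 * m))) ^ k)) ≤
    ((2 * m).factorial : ℝ) * (2 / Real.exp 1 ^ 2 *
      (2700 * Real.exp 1 ^ 5 * (1 / 10 ^ 6)) ^ k) * y ^ k := by
  rcases hy.eq_or_lt with h0 | h0
  · subst h0
    have : (21600 * Real.exp 1 * (k : ℝ) ^ 2 * (1 / 10 ^ 6 * 0 * (2 * m))) ^ k = 0 := by
      rw [mul_zero, zero_mul, mul_zero, zero_pow hk.ne']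
    rw [this, zero_pow hk.ne']
    simp
  have h1 := term_le m k hk hkm y h0
  have hp : 0 < y ^ (m - k) := pow_pos h0 _
  have h2 : y ^ m = y ^ (m - k) * y ^ k := by rw [← pow_add, Nat.sub_add_cancel hkm]
  refine le_of_mul_le_mul_left ?_ hp
  calc _ = (m.choose k : ℝ) * (y ^ (m - k) * ((2 * m).factorial /
        ((2 * m).descFactorial (2 * k) * (2 * k).factorial) *
        (k.factorial * (21600 * Real.exp 1 * (k : ℝ) ^ 2 * (1 / 10 ^ 6 * y * (2 * m))) ^ k))) := by
        ring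
    _ ≤ _ := h1
    _ = _ := by rw [h2]; ring

section assembly

variable {B : Type*} [Fintype B] [DecidableEq B]
  {E : B × Bool → B × Bool → B × Bool → B × Bool → ℝ}

/-- **Main estimate, homogeneous form.** -/
theorem main_gen (hE : Sym4 E) (hscal : ∑ i, ricc E i i = 0) (κ : ℝ) {y : ℝ} (hy : 0 ≤ y)
    (h4 : ∑ i, ∑ j, ∑ p, ∑ l, E i j p l ^ 2 ≤ (1 / 10 ^ 6 * y * (2 * Fintype.card B)) ^ 2)
    (h2 : ∑ i, ∑ j, ricc E i j ^ 2 ≤ (1 / 10 ^ 6 * y * (2 * Fintype.card B)) ^ 2) :
    |Yf (fun a b c d => κ * (if a = b then 1 else 0) * (if c = d then 1 else 0) + Cl E a b c d) -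
      κ ^ Fintype.card B * (2 * Fintype.card B).factorial| ≤
      (2 * Fintype.card B).factorial * ∑ k ∈ range (Fintype.card B),
        (2 / Real.exp 1 ^ 2 * (2700 * Real.exp 1 ^ 5 * (1 / 10 ^ 6)) ^ (k + 1)) *
          (|κ| ^ (Fintype.card B - (k + 1)) * y ^ (k + 1)) := by
  set m := Fintype.card B with hm
  set a : ℝ := 1 / 10 ^ 6 * y * (2 * m) with ha
  have ha0 : 0 ≤ a := by positivity
  rw [Yf_expand]
  have hsplit := Finset.sum_erase_add (Finset.univ : Finset (Finset B))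
    (fun T => κ ^ (m - T.card) * ∑ σ : Equiv.Perm (B × Bool), yf (pb (Cl E) (σ ∘ iT T)))
    (Finset.mem_univ ∅)
  rw [← hsplit]
  have hempty : κ ^ (m - (∅ : Finset B).card) *
      ∑ σ : Equiv.Perm (B × Bool), yf (pb (Cl E) (σ ∘ iT (∅ : Finset B))) =
      κ ^ m * (2 * m).factorial := by
    have : ∀ σ : Equiv.Perm (B × Bool), yf (pb (Cl E) (σ ∘ iT (∅ : Finset B))) = 1 := by
      intro σ
      simp [yf, sn]
    simp only [this]
    rw [Finset.sum_const, Finset.card_univ, Fintype.card_perm, Fintype.card_prod,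
      Fintype.card_bool, Finset.card_empty, Nat.sub_zero, nsmul_eq_mul, mul_one, mul_comm 2 m, hm]
  rw [hempty, add_sub_cancel_right]
  refine (Finset.abs_sum_le_sum_abs _ _).trans ?_
  have h5 : ∀ T ∈ (Finset.univ : Finset (Finset B)).erase ∅,
      |κ ^ (m - T.card) * ∑ σ : Equiv.Perm (B × Bool), yf (pb (Cl E) (σ ∘ iT T))| ≤
      |κ| ^ (m - T.card) * ((2 * m).factorial / ((2 * m).descFactorial (2 * T.card) *
        (2 * T.card).factorial) * (T.card.factorial *
          (21600 * Real.exp 1 * (T.card : ℝ) ^ 2 * a) ^ T.card)) := by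
    intro T hT
    rw [abs_mul, abs_pow]
    refine mul_le_mul_of_nonneg_left ?_ (by positivity)
    exact term_bound hE hscal ha0 h4 h2 T
      (Finset.card_pos.mpr (Finset.nonempty_iff_ne_empty.mpr (Finset.ne_of_mem_erase hT)))
  refine (Finset.sum_le_sum h5).trans ?_
  -- group by cardinality
  set g : ℕ → ℝ := fun k => if k = 0 then 0 else |κ| ^ (m - k) * ((2 * m).factorial /
    ((2 * m).descFactorial (2 * k) * (2 * k).factorial) * (k.factorial *
          (21600 * Real.exp 1 * (k : ℝ) ^ 2 * a) ^ k)) with hg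
  have h6 : ∑ T ∈ (Finset.univ : Finset (Finset B)).erase ∅,
      |κ| ^ (m - T.card) * ((2 * m).factorial / ((2 * m).descFactorial (2 * T.card) *
        (2 * T.card).factorial) * (T.card.factorial *
          (21600 * Real.exp 1 * (T.card : ℝ) ^ 2 * a) ^ T.card)) =
      ∑ T ∈ (Finset.univ : Finset B).powerset, g T.card := by
    rw [Finset.powerset_univ, ← Finset.sum_erase_add _ _ (Finset.mem_univ (∅ : Finset B))]
    have h7 : g (∅ : Finset B).card = 0 := by simp [hg]
    rw [h7, add_zero]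
    refine Finset.sum_congr rfl fun T hT => ?_
    have : T.card ≠ 0 := by
      rw [Ne, Finset.card_eq_zero]; exact Finset.ne_of_mem_erase hT
    simp only [hg, if_neg this]
  rw [h6, Finset.sum_powerset_apply_card, Finset.card_univ, ← hm, Finset.sum_range_succ']
  have h8 : (m.choose 0) • g 0 = 0 := by simp [hg]
  rw [h8, add_zero, Finset.mul_sum]
  refine Finset.sum_le_sum fun k hk => ?_
  have hkm : k + 1 ≤ m := Finset.mem_range.mp hk
  have h9 := term_gen m (k + 1) (Nat.succ_pos k) hkm y hy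
  have h10 := mul_le_mul_of_nonneg_left h9 (pow_nonneg (abs_nonneg κ) (m - (k + 1)))
  rw [nsmul_eq_mul]
  simp only [hg, if_neg (Nat.succ_ne_zero k), ha]
  refine le_trans (le_of_eq ?_) (h10.trans (le_of_eq ?_))
  · push_cast; ring
  · ring

end assembly

/-- weighted inequality of the arithmetic and geometric mean -/
theorem amgm (m k : ℕ) (hm : 0 < m) (hkm : k ≤ m) {u y : ℝ} (hu : 0 ≤ u) (hy : 0 ≤ y) :
    u ^ (m - k) * y ^ k ≤ ((m - k) * u ^ m + k * y ^ m) / m := by
  have hm' : (0 : ℝ) < m := by exact_mod_cast hm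
  have hkm' : (k : ℝ) ≤ m := by exact_mod_cast hkm
  have h1 := Real.geom_mean_le_arith_mean2_weighted (w₁ := ((m : ℝ) - k) / m) (w₂ := (k : ℝ) / m)
    (p₁ := u ^ m) (p₂ := y ^ m) (div_nonneg (by linarith) hm'.le) (by positivity)
    (by positivity) (by positivity) (by field_simp; ring)
  have e1 : (u ^ m) ^ (((m : ℝ) - k) / m) = u ^ (m - k) := by
    rw [← Real.rpow_natCast u m, ← Real.rpow_mul hu, mul_div_cancel₀ _ hm'.ne',
      ← Real.rpow_natCast u (m - k), Nat.cast_sub hkm]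
  have e2 : (y ^ m) ^ ((k : ℝ) / m) = y ^ k := by
    rw [← Real.rpow_natCast y m, ← Real.rpow_mul hy, mul_div_cancel₀ _ hm'.ne',
      Real.rpow_natCast]
  rw [e1, e2] at h1
  refine h1.trans (le_of_eq ?_)
  field_simp

/-- the numerical sum -/
theorem sum_num (m : ℕ) (hm : 0 < m) {u y : ℝ} (hu : 0 ≤ u) (hy : 0 ≤ y) :
    ∑ k ∈ range m, (2 / Real.exp 1 ^ 2 * (2700 * Real.exp 1 ^ 5 * (1 / 10 ^ 6)) ^ (k + 1)) *
      (u ^ (m - (k + 1)) * y ^ (k + 1)) ≤ 1 / 5 * u ^ m + 1 / (3 * m) * y ^ m := by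
  have he1 := Real.exp_one_gt_d9
  have he2 := Real.exp_one_lt_d9
  set e := Real.exp 1
  have hm' : (0 : ℝ) < m := by exact_mod_cast hm
  have hx0 : 0 ≤ 2700 * e ^ 5 * (1 / 10 ^ 6) := by positivity
  have hx : 2700 * e ^ 5 * (1 / 10 ^ 6) ≤ 0.401 := by
    have : e ^ 5 ≤ 2.7182818286 ^ 5 := pow_le_pow_left₀ (by positivity) he2.le 5
    norm_num at this ⊢
    linarith
  have hc : 2 / e ^ 2 ≤ 0.271 := by
    rw [div_le_iff₀ (by positivity)]
    have : 2.7182818283 ^ 2 ≤ e ^ 2 := pow_le_pow_left₀ (by norm_num) he1.le 2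
    norm_num at this ⊢
    linarith
  have hc0 : 0 ≤ 2 / e ^ 2 := by positivity
  have h1 : ∀ k ∈ range m, (2 / e ^ 2 * (2700 * e ^ 5 * (1 / 10 ^ 6)) ^ (k + 1)) *
      (u ^ (m - (k + 1)) * y ^ (k + 1)) ≤
      (0.271 * 0.401 ^ (k + 1)) * (u ^ m + (k + 1) * y ^ m / m) := by
    intro k hk
    have hkm : k + 1 ≤ m := mem_range.mp hk
    have h2 := amgm m (k + 1) hm hkm hu hy
    have h3 : ((m - (k + 1 : ℕ)) * u ^ m + (k + 1 : ℕ) * y ^ m) / m ≤
        u ^ m + (k + 1) * y ^ m / m := by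
      rw [div_le_iff₀ hm', add_mul, div_mul_cancel₀ _ hm'.ne']
      push_cast
      have : 0 ≤ ((k : ℝ) + 1) * u ^ m := by positivity
      nlinarith
    have h4 : 2 / e ^ 2 * (2700 * e ^ 5 * (1 / 10 ^ 6)) ^ (k + 1) ≤ 0.271 * 0.401 ^ (k + 1) :=
      mul_le_mul hc (pow_le_pow_left₀ hx0 hx _) (by positivity) (by norm_num)
    exact mul_le_mul h4 (h2.trans h3) (by positivity) (by positivity)
  refine (sum_le_sum h1).trans ?_
  have hs1 : ∀ N : ℕ, ∑ k ∈ range N, (0.271 * 0.401 ^ (k + 1) : ℝ) ≤ 1 / 5 := by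
    intro N
    have : ∀ N : ℕ, ∑ k ∈ range N, (0.271 * 0.401 ^ (k + 1) : ℝ) ≤
        1 / 5 - 1 / 5 * 0.401 ^ N := by
      intro N
      induction N with
      | zero => simp
      | succ N ih =>
        rw [sum_range_succ]
        have : (0 : ℝ) < 0.401 ^ N := by positivity
        rw [pow_succ]
        nlinarith
    have h := this N
    have : (0 : ℝ) < 0.401 ^ N := by positivity
    linarith
  have hs2 : ∀ N : ℕ, ∑ k ∈ range N, (0.271 * 0.401 ^ (k + 1) * (k + 1) : ℝ) ≤ 1 / 3 := by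
    intro N
    have : ∀ N : ℕ, ∑ k ∈ range N, (0.271 * 0.401 ^ (k + 1) * (k + 1) : ℝ) ≤
        1 / 3 - (1 / 3 + 1 / 5 * N) * 0.401 ^ N := by
      intro N
      induction N with
      | zero => simp
      | succ N ih =>
        rw [sum_range_succ]
        have h1 : (0 : ℝ) < 0.401 ^ N := by positivity
        have h2 : (0 : ℝ) ≤ N * 0.401 ^ N := by positivity
        rw [pow_succ]
        push_cast
        nlinarith
    have h := this N
    have : (0 : ℝ) ≤ (1 / 3 + 1 / 5 * N) * 0.401 ^ N := by positivity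
    linarith
  have h5 : ∑ k ∈ range m, (0.271 * 0.401 ^ (k + 1)) * (u ^ m + (k + 1) * y ^ m / m) =
      (∑ k ∈ range m, (0.271 * 0.401 ^ (k + 1) : ℝ)) * u ^ m +
        (∑ k ∈ range m, (0.271 * 0.401 ^ (k + 1) * (k + 1) : ℝ)) * (y ^ m / m) := by
    rw [sum_mul, sum_mul, ← sum_add_distrib]
    exact sum_congr rfl fun k _ => by ring
  rw [h5]
  have h6 := mul_le_mul_of_nonneg_right (hs1 m) (pow_nonneg hu m)
  have h7 := mul_le_mul_of_nonneg_right (hs2 m) (by positivity : 0 ≤ y ^ m / m)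
  have h8 : 1 / (3 * m) * y ^ m = 1 / 3 * (y ^ m / m) := by field_simp
  rw [h8]
  linarith

variable {V : Type*} [NormedAddCommGroup V] [InnerProductSpace ℝ V] {m : ℕ}

/-- The pointwise estimate: the Gauss-Bonnet-Chern integrand of an arbitrary algebraic curvature
tensor, the mean `-κ` of its sectional curvatures, and its distance to constant curvature. -/
theorem gbc_gen (hm : 0 < m) (e : OrthonormalBasis (Fin m × Bool) ℝ V)
    {R : V → V → V → V → ℝ} (hR : AlgCurv R) {κ D : ℝ} (hD : 0 ≤ D)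
    (hs : scal e R = -(κ * (2 * m * (2 * m - 1)))) (h4 : devR e R κ ≤ D ^ 2)
    (h2 : devRic e R κ ≤ D ^ 2) :
    |(-1) ^ m * gbc e R - roundGB m κ| ≤
      1 / 5 * roundGB m |κ| + 1 / (3 * m) * roundGB m (10 ^ 6 * D / (2 * m)) := by
  have hm' : (0 : ℝ) < m := by exact_mod_cast hm
  have hE := EE_sym e hR κ
  have hsc : ∑ i, ricc (EE e R κ) i i = 0 := by
    simp only [ricc_EE, if_true, Finset.sum_neg_distrib, Finset.sum_add_distrib,
      Finset.sum_const, Finset.card_univ, Fintype.card_prod, Fintype.card_fin, Fintype.card_bool,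
      nsmul_eq_mul]
    have : ∑ i, ∑ j, R (e j) (e i) (e j) (e i) = scal e R := by
      rw [scal, Finset.sum_comm]
    rw [this, hs]
    push_cast; ring
  have hy : (0 : ℝ) ≤ 10 ^ 6 * D / (2 * m) := by positivity
  have hDy : 1 / 10 ^ 6 * (10 ^ 6 * D / (2 * m)) * (2 * (m : ℝ)) = D := by field_simp
  have hb := main_gen hE hsc κ hy (by
      rw [Fintype.card_fin, hDy]
      refine le_trans (le_of_eq ?_) h4
      simp only [EE, neg_sq, devR]) (by
      rw [Fintype.card_fin, hDy]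
      refine le_trans (le_of_eq ?_) h2
      simp only [ricc_EE, neg_sq, devRic])
  rw [Fintype.card_fin] at hb
  have hb' := hb.trans (mul_le_mul_of_nonneg_left (sum_num m hm (abs_nonneg κ) hy) (by positivity))
  have hπ := Real.pi_pos
  have hr : ∀ x : ℝ, roundGB m x = 2 ^ m / ((8 * Real.pi) ^ m * m.factorial) *
      (x ^ m * (2 * m).factorial) := by
    intro x
    unfold roundGB
    have : (8 * Real.pi) ^ m = 2 ^ m * (4 * Real.pi) ^ m := by
      rw [← mul_pow]; congr 1; ring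
    rw [this]
    field_simp
  have hc : 0 < 2 ^ m / ((8 * Real.pi) ^ m * (m.factorial : ℝ)) := by positivity
  rw [neg_gbc_eq e hR κ, hr, ← mul_sub, abs_mul, abs_of_pos hc, hr, hr]
  calc _ ≤ 2 ^ m / ((8 * Real.pi) ^ m * (m.factorial : ℝ)) *
        ((2 * m).factorial * (1 / 5 * |κ| ^ m + 1 / (3 * m) * (10 ^ 6 * D / (2 * m)) ^ m)) :=
          mul_le_mul_of_nonneg_left hb' hc.le
    _ = _ := by ring

end Pool.Agent.Y499.GB
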